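import Pool.Agent.W510.Cub.Poly

/-!
# Rational curves through every rational point of a smooth cubic surface over a finite field

Let `k` be a finite field (more generally a perfect field) and let `F = 0` be a smooth cubic
surface `X` in projective three-space over `k`. Through every point `x` of `X` with coordinates
in `k` there is a rational curve on `X` defined over `k`: a non-constant morphism from the
projective line over `k` to `X` whose image contains `x`.
-/

namespace Pool.Agent.Results.MP_4f7796_ag.RationalCurveThroughPoint

open MvPolynomial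

/-- `F` is a cubic form in four variables over `k` whose zero locus in projective three-space is
a smooth surface: at no geometric zero do all four first derivatives vanish. -/
def IsSmoothCubicSurface {k : Type*} [Field k] (F : MvPolynomial (Fin 4) k) : Prop :=
  F.IsHomogeneous 3 ∧
    ∀ v : Fin 4 → AlgebraicClosure k, v ≠ 0 → aeval v F = 0 → ∃ i, aeval v (pderiv i F) ≠ 0

/-- The four binary forms `f` of degree `e` over `k` have no common zero on the projective line
over the algebraic closure and satisfy the equation `F`: they are a morphism of degree `e` from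
the projective line over `k` to the surface `F = 0`. -/
structure IsMorphismFromLine {k : Type*} [Field k] (F : MvPolynomial (Fin 4) k) (e : ℕ)
    (f : Fin 4 → MvPolynomial (Fin 2) k) : Prop where
  isHomogeneous : ∀ i, (f i).IsHomogeneous e
  noCommonZero : ∀ v : Fin 2 → AlgebraicClosure k, v ≠ 0 → ∃ i, aeval v (f i) ≠ 0
  onSurface : aeval f F = 0

/-- The image of the morphism given by `f` contains the point with coordinates `x`: some
geometric point `v` of the projective line is mapped to a multiple of `x`. -/
def ImageContains {k : Type*} [Field k] (f : Fin 4 → MvPolynomial (Fin 2) k)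
    (x : Fin 4 → k) : Prop :=
  ∃ v : Fin 2 → AlgebraicClosure k, v ≠ 0 ∧ ∃ s : AlgebraicClosure k, s ≠ 0 ∧
    ∀ i, aeval v (f i) = s * algebraMap k (AlgebraicClosure k) (x i)

/-- Over a perfect field `k` (in particular over every finite field), every point of a smooth
cubic surface with coordinates in `k` lies on the image of a non-constant morphism (degree
`e > 0`) from the projective line over `k` to the surface. -/
theorem result (k : Type*) [Field k] [PerfectField k] (F : MvPolynomial (Fin 4) k)
    (hF : IsSmoothCubicSurface F) (x : Fin 4 → k) (hx0 : x ≠ 0) (hx : eval x F = 0) :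
    ∃ (e : ℕ) (f : Fin 4 → MvPolynomial (Fin 2) k),
      0 < e ∧ IsMorphismFromLine F e f ∧ ImageContains f x := by
  obtain ⟨c, rfl⟩ := Pool.Agent.W510.Cub.exists_tensor F hF.1
  have hsm : Pool.Agent.W510.Cub.SmoothT c := by
    intro v hv0 hv
    rw [← Pool.Agent.W510.Cub.aeval_polyOf] at hv
    obtain ⟨i, hi⟩ := hF.2 v hv0 hv
    rw [Pool.Agent.W510.Cub.aeval_pderiv_polyOf] at hi
    exact ⟨_, hi⟩
  have hxT : Pool.Agent.W510.Cub.TF c x = 0 := by
    have h1 : aeval x (Pool.Agent.W510.Cub.polyOf c) = 0 := by
      rw [← hx, aeval_eq_eval]
    rw [Pool.Agent.W510.Cub.aeval_polyOf] at h1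
    simpa using h1
  obtain ⟨e, f, he, hhom, hnz, hon, v, hv, s, hs, hvs⟩ :=
    (Pool.Agent.W510.Cub.good_of_smooth hsm hx0 hxT).forms hx0
  refine ⟨e, f, he, ⟨hhom, ?_, ?_⟩, v, hv, s, hs, hvs⟩
  · intro w hw
    by_contra hcon
    push Not at hcon
    exact hw (hnz w hcon)
  · rw [Pool.Agent.W510.Cub.aeval_polyOf]
    exact hon

/-- The case of finite fields, as posed. -/
example (k : Type*) [Field k] [Finite k] (F : MvPolynomial (Fin 4) k)
    (hF : IsSmoothCubicSurface F) (x : Fin 4 → k) (hx0 : x ≠ 0) (hx : eval x F = 0) :
    ∃ (e : ℕ) (f : Fin 4 → MvPolynomial (Fin 2) k),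
      0 < e ∧ IsMorphismFromLine F e f ∧ ImageContains f x :=
  result k F hF x hx0 hx

end Pool.Agent.Results.MP_4f7796_ag.RationalCurveThroughPoint
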